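import Pool.Agent.Helper86.Poly.Goals

set_option autoImplicit false

namespace Pool.Agent.Helper8.Poly

open MeasureTheory Set Filter Topology Pool.Agent.Helper86.Poly

/-- enumeration of the vertices of an admissible set -/
theorem PkATT.enum (d n : ℕ) (P : Set (E d)) (hP : Admissible d n P) :
    IsCompact P ∧ Convex ℝ P ∧ ∃ p : Fin n → E d, Function.Injective p ∧
      range p = P.extremePoints ℝ ∧ P = convexHull ℝ (range p) ∧
      ∀ i j, dist (p i) (p j) ≤ 1 := by
  obtain ⟨⟨s, hsfin, hPs⟩, hint, hcard, hdiam⟩ := hP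
  have hPcomp : IsCompact P := by rw [hPs]; exact hsfin.isCompact_convexHull (𝕜 := ℝ)
  have hPconv : Convex ℝ P := by rw [hPs]; exact convex_convexHull ℝ s
  have hdist : ∀ x ∈ P, ∀ y ∈ P, dist x y ≤ 1 := by
    intro x hx y hy
    rw [← hdiam]
    exact Metric.dist_le_diam_of_mem hPcomp.isBounded hx hy
  have hTsub : P.extremePoints ℝ ⊆ s := by
    conv_lhs => rw [hPs]
    exact extremePoints_convexHull_subset
  have hTfin : (P.extremePoints ℝ).Finite := hsfin.subset hTsub
  have hPT : convexHull ℝ (P.extremePoints ℝ) = P := by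
    have := closure_convexHull_extremePoints hPcomp hPconv
    conv_rhs => rw [← this]
    exact ((hTfin.isCompact_convexHull (𝕜 := ℝ)).isClosed.closure_eq).symm
  have hc : hTfin.toFinset.card = n := by
    rw [← hcard, Set.ncard_eq_toFinset_card _ hTfin]
  let e := hTfin.toFinset.equivFinOfCardEq hc
  have hr : range (fun i : Fin n => ((e.symm i : hTfin.toFinset) : E d)) = P.extremePoints ℝ := by
    ext x
    constructor
    · rintro ⟨i, rfl⟩
      exact hTfin.mem_toFinset.1 (e.symm i).2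
    · intro hx
      exact ⟨e ⟨x, hTfin.mem_toFinset.2 hx⟩, by simp⟩
  refine ⟨hPcomp, hPconv, fun i => (e.symm i : E d), ?_, hr, ?_, ?_⟩
  · exact Subtype.val_injective.comp e.symm.injective
  · rw [hr, hPT]
  · intro i j
    refine hdist _ ?_ _ ?_
    · exact extremePoints_subset (hTfin.mem_toFinset.1 (e.symm i).2)
    · exact extremePoints_subset (hTfin.mem_toFinset.1 (e.symm j).2)

theorem PkATT.fin (d n : ℕ) (p : Fin n → E d) : volume (convexHull ℝ (range p)) ≠ ⊤ :=
  ((finite_range p).isCompact_convexHull (𝕜 := ℝ)).measure_lt_top.ne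

theorem PkATT.Veq (hM : G_MX1) (d n : ℕ) (hd : 2 ≤ d) (hn : d + 1 ≤ n) (p : Fin n → E d)
    (hp : Mx d n p) : V d n = (volume (convexHull ℝ (range p))).toReal := by
  refine IsGreatest.csSup_eq ⟨⟨_, (hM d n p hd hn hp).1, rfl⟩, ?_⟩
  rintro v ⟨P, hP, rfl⟩
  obtain ⟨_, _, q, _, _, hq, hqd⟩ := PkATT.enum d n P hP
  rw [hq]
  exact ENNReal.toReal_mono (PkATT.fin d n p) (hp.2 q hqd)

theorem PkATT.thm (h1 : G_MAX) (h3 : G_STR) (hM : G_MX1) : G_ATT := by
  intro d n hd hn
  obtain ⟨p, hp⟩ := h1 d n (by omega)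
  obtain ⟨p', hp'⟩ := h1 d (n + 1) (by omega)
  have hV := PkATT.Veq hM d n hd hn p hp
  have hV' := PkATT.Veq hM d (n + 1) hd (by omega) p' hp'
  obtain ⟨hadm, hlt⟩ := hM d n p hd hn hp
  refine ⟨⟨_, hadm, hV.symm⟩, ?_, ?_⟩
  · rw [hV, hV']
    exact (ENNReal.toReal_lt_toReal (PkATT.fin _ _ _) (PkATT.fin _ _ _)).2 (hlt p' hp')
  · intro P hP hPV v hv
    obtain ⟨hPc, hPconv, q, hqi, hqr, hq, hqd⟩ := PkATT.enum d n P hP
    by_contra hcon
    push Not at hcon
    obtain ⟨i₀, hi₀⟩ : v ∈ range q := by rw [hqr]; exact hv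
    have hlt1 : ∀ j, dist v (q j) < 1 := by
      intro j
      refine lt_of_le_of_ne (by rw [← hi₀]; exact hqd i₀ j) (hcon _ ?_)
      rw [← hqr]; exact mem_range_self j
    obtain ⟨i₁, hi₁⟩ : ∃ i₁ : Fin n, i₁ ≠ i₀ := by
      have : Nontrivial (Fin n) := Fin.nontrivial_iff_two_le.2 (by omega)
      exact exists_ne i₀
    have hx₀ : q i₁ ≠ v := by
      rw [← hi₀]; exact fun h => hi₁ (hqi h)
    have hev : ∀ᶠ ε in 𝓝[>] (0 : ℝ), ∀ j, dist (v + ε • (v - q i₁)) (q j) < 1 := by
      rw [Filter.eventually_all]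
      intro j
      have hcont : Continuous fun ε : ℝ => dist (v + ε • (v - q i₁)) (q j) := by fun_prop
      have h0 : Tendsto (fun ε : ℝ => dist (v + ε • (v - q i₁)) (q j)) (𝓝[>] 0)
          (𝓝 (dist (v + (0 : ℝ) • (v - q i₁)) (q j))) :=
        (hcont.tendsto 0).mono_left nhdsWithin_le_nhds
      rw [zero_smul, add_zero] at h0
      exact h0.eventually (gt_mem_nhds (hlt1 j))
    obtain ⟨ε, hε, hε0⟩ := (hev.and self_mem_nhdsWithin).exists
    have hε0' : 0 < ε := hε0
    set w := v + ε • (v - q i₁) with hw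
    have hseg : v ∈ openSegment ℝ (q i₁) w := by
      refine ⟨ε / (1 + ε), 1 / (1 + ε), by positivity, by positivity, by field_simp; ring, ?_⟩
      have hne : (1 + ε) ≠ 0 := by positivity
      have e : (1 + ε) • ((ε / (1 + ε)) • q i₁ + (1 / (1 + ε)) • w) = (1 + ε) • v := by
        rw [smul_add, smul_smul, smul_smul, mul_div_cancel₀ _ hne, mul_div_cancel₀ _ hne, hw]
        module
      exact smul_right_injective _ hne e
    have hwP : w ∉ P := by
      intro hwP
      have hq1 : q i₁ ∈ P := extremePoints_subset (by rw [← hqr]; exact mem_range_self i₁)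
      exact hx₀ (hv.2 hq1 hwP hseg)
    have hint := hP.2.1
    have hst := h3 d P w hPc hPconv hint hwP
    let q' : Fin n → E d := Function.update q i₀ w
    have hq'0 : q' i₀ = w := Function.update_self _ _ _
    have hq'1 : ∀ j, j ≠ i₀ → q' j = q j := fun j hj => Function.update_of_ne hj _ _
    have hq'd : ∀ i j, dist (q' i) (q' j) ≤ 1 := by
      intro i j
      by_cases hi : i = i₀
      · by_cases hj : j = i₀
        · rw [hi, hj, dist_self]; norm_num
        · rw [hi, hq'0, hq'1 j hj]; exact (hε j).le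
      · by_cases hj : j = i₀
        · rw [hj, hq'0, hq'1 i hi, dist_comm]; exact (hε i).le
        · rw [hq'1 i hi, hq'1 j hj]; exact hqd i j
    have hwq : w ∈ convexHull ℝ (range q') := subset_convexHull ℝ _ ⟨i₀, hq'0⟩
    have hsub : convexHull ℝ (insert w P) ⊆ convexHull ℝ (range q') := by
      refine convexHull_min ?_ (convex_convexHull ℝ _)
      rw [insert_subset_iff]
      refine ⟨hwq, ?_⟩
      rw [hq]
      refine convexHull_min ?_ (convex_convexHull ℝ _)
      rintro _ ⟨j, rfl⟩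
      by_cases hj : j = i₀
      · rw [hj, hi₀]
        have hq1 : q i₁ ∈ convexHull ℝ (range q') :=
          subset_convexHull ℝ _ ⟨i₁, hq'1 i₁ hi₁⟩
        exact (convex_convexHull ℝ (range q')).openSegment_subset hq1 hwq hseg
      · exact subset_convexHull ℝ _ ⟨j, hq'1 j hj⟩
    have h5 : volume P < volume (convexHull ℝ (range p)) :=
      hst.trans_le ((measure_mono hsub).trans (hp.2 q' hq'd))
    have h6 := (ENNReal.toReal_lt_toReal hPc.measure_lt_top.ne (PkATT.fin _ _ _)).2 h5
    rw [← hV, hPV] at h6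
    exact lt_irrefl _ h6

end Pool.Agent.Helper8.Poly
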