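import Pool.Agent.Helper86.Poly.Goals
import Pool.Agent.Helper65.Mahler.BM

set_option autoImplicit false

namespace Pool.Agent.Helper8.Poly

open MeasureTheory Set Pool.Agent.Helper86.Poly

theorem PkISO.closed (d : ℕ) (K : Set (E d)) (hKc : IsCompact K)
    (hdist : ∀ x ∈ K, ∀ y ∈ K, dist x y ≤ 1) :
    volume K ≤ volume (Metric.closedBall (0 : E d) (1 / 2)) := by
  obtain ⟨R, hR0, hR⟩ : ∃ R : ℝ, 1 ≤ R ∧ K ⊆ Metric.closedBall 0 R := by
    obtain ⟨R, hR⟩ := hKc.isBounded.subset_closedBall (0 : E d)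
    exact ⟨max R 1, le_max_right _ _, hR.trans (Metric.closedBall_subset_closedBall (le_max_left _ _))⟩
  have hmp := PiLp.volume_preserving_toLp (Fin d)
  have hbox : ∀ X : Set (E d), X ⊆ Metric.closedBall 0 R →
      (WithLp.toLp 2 : (Fin d → ℝ) → E d) ⁻¹' X ⊆ Pool.Agent.Helper65.Mahler.box d R := by
    intro X hX x hx i
    have h1 := hX hx
    rw [mem_closedBall_zero_iff] at h1
    have h2 := PiLp.norm_apply_le (WithLp.toLp 2 x : E d) i
    have h3 : |x i| ≤ R := by
      have : ‖(WithLp.toLp 2 x : E d) i‖ = |x i| := by simp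
      rw [← this]; exact h2.trans h1
    exact abs_le.1 h3
  have hKm : MeasurableSet K := hKc.isClosed.measurableSet
  have hnKm : MeasurableSet (-K) := hKm.neg
  have hSm : MeasurableSet (Metric.closedBall (0 : E d) (1 / 2)) := Metric.isClosed_closedBall.measurableSet
  have key := Pool.Agent.Helper65.Mahler.brunn_minkowski d R
    ((WithLp.toLp 2 : (Fin d → ℝ) → E d) ⁻¹' K) ((WithLp.toLp 2 : (Fin d → ℝ) → E d) ⁻¹' (-K))
    ((WithLp.toLp 2 : (Fin d → ℝ) → E d) ⁻¹' (Metric.closedBall (0 : E d) (1 / 2)))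
    (hmp.measurable hKm) (hmp.measurable hnKm) (hmp.measurable hSm)
    (hbox K hR) (hbox _ ?_) (hbox _ (Metric.closedBall_subset_closedBall (by linarith))) ?_
  · rw [hmp.measure_preimage hKm.nullMeasurableSet, hmp.measure_preimage hnKm.nullMeasurableSet,
      hmp.measure_preimage hSm.nullMeasurableSet, Measure.measure_neg] at key
    by_contra hlt
    push Not at hlt
    have h1 : volume (Metric.closedBall (0 : E d) (1 / 2)) ^ 2 < volume K * volume K := by
      rw [sq]
      exact ENNReal.mul_lt_mul hlt hlt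
    exact absurd key (not_le.2 h1)
  · intro x hx
    have := hR hx
    simpa using this
  · intro a ha b hb
    have ha' : (WithLp.toLp 2 a : E d) ∈ K := ha
    have hb' : -(WithLp.toLp 2 b : E d) ∈ K := hb
    have h := hdist _ ha' _ hb'
    rw [dist_eq_norm, sub_neg_eq_add] at h
    show (WithLp.toLp 2 ((1 / 2 : ℝ) • (a + b)) : E d) ∈ Metric.closedBall (0 : E d) (1 / 2)
    rw [mem_closedBall_zero_iff, WithLp.toLp_smul, WithLp.toLp_add, norm_smul]
    rw [Real.norm_of_nonneg (by norm_num)]
    linarith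

theorem PkISO.thm : G_ISO := by
  intro d K hKc _ hdist
  have h := PkISO.closed d K hKc hdist
  rcases d with _ | d
  · refine h.trans (measure_mono ?_)
    intro x _
    have : x = 0 := Subsingleton.elim _ _
    rw [this]
    simp
  · have hn : Nontrivial (E (d + 1)) := by
      infer_instance
    rwa [Measure.addHaar_closedBall_eq_addHaar_ball] at h

end Pool.Agent.Helper8.Poly
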