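import Pool.Agent.Helper86.Poly.Goals

set_option autoImplicit false

namespace Pool.Agent.Helper8.Poly

open MeasureTheory Set Pool.Agent.Helper86.Poly

theorem PkUPA.thm (h1 : G_COMP) (h2 : G_ISO) (h3 : G_CAP) (h4 : G_CONE) : G_UPA := by
  intro d n P r hd hP hr0 hr1 hn
  obtain ⟨⟨s, hsfin, hPs⟩, hint, hcard, hdiam⟩ := hP
  have hPcomp : IsCompact P := by rw [hPs]; exact hsfin.isCompact_convexHull (𝕜 := ℝ)
  have hPconv : Convex ℝ P := by rw [hPs]; exact convex_convexHull ℝ s
  have hPne : P.Nonempty := hint.mono interior_subset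
  have hdist : ∀ x ∈ P, ∀ y ∈ P, dist x y ≤ 1 := by
    intro x hx y hy
    rw [← hdiam]
    exact Metric.dist_le_diam_of_mem hPcomp.isBounded hx hy
  obtain ⟨K, hPK, hK⟩ := h1 d P hPne hdist
  have hKcomp := hK.1
  have hKconv := hK.2.1
  have hvK := h2 d K hKcomp hKconv hK.2.2.1
  -- extreme points
  set T : Set (E d) := P.extremePoints ℝ with hT
  have hTsub : T ⊆ s := by
    rw [hT, hPs]
    exact extremePoints_convexHull_subset
  have hTfin : T.Finite := hsfin.subset hTsub
  have hPT : convexHull ℝ T = P := by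
    have := closure_convexHull_extremePoints hPcomp hPconv
    rw [← hT] at this
    rw [← this]
    exact ((hTfin.isCompact_convexHull (𝕜 := ℝ)).isClosed.closure_eq).symm
  obtain ⟨c, hcT⟩ := hPcomp.extremePoints_nonempty hPne
  have hTP : T ⊆ P := extremePoints_subset
  have hcP : c ∈ P := hTP hcT
  have hcK : c ∈ K := hPK hcP
  -- the hulls
  set H : E d → Set (E d) := fun v => convexHull ℝ (insert c (Metric.closedBall v r)) with hH
  have hHconv : ∀ v, Convex ℝ (H v) := fun v => convex_convexHull ℝ _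
  have hcH : ∀ v, c ∈ H v := fun v => subset_convexHull ℝ _ (mem_insert _ _)
  set W : Set (E d) := ⋃ v ∈ T, H v with hW
  set A : Set (E d) := K ∩ W with hA
  set l : ℝ := 1 - r ^ 2 / 2 with hl
  have hr2 : r ^ 2 ≤ 1 := by nlinarith
  have hr2' : 0 < r ^ 2 := by positivity
  have hl0 : 0 ≤ l := by rw [hl]; linarith
  have hl1 : l ≤ 1 := by rw [hl]; linarith
  set φ := AffineMap.homothety c l with hφ
  have hφa : ∀ w, φ w = c + l • (w - c) := by
    intro w
    rw [hφ, AffineMap.homothety_apply]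
    simp [add_comm]
  have hφmem : ∀ (C : Set (E d)), Convex ℝ C → c ∈ C → ∀ w ∈ C, φ w ∈ C := by
    intro C hC hc w hw
    rw [hφa]
    have := hC hc hw (a := 1 - l) (b := l) (by linarith) hl0 (by ring)
    have e : c + l • (w - c) = (1 - l) • c + l • w := by
      clear_value l
      module
    rw [e]; exact this
  have hφA : φ '' A ⊆ A := by
    rintro _ ⟨w, ⟨hwK, hwW⟩, rfl⟩
    refine ⟨hφmem K hKconv hcK w hwK, ?_⟩
    simp only [hW, mem_iUnion] at hwW ⊢
    obtain ⟨v, hv, hwv⟩ := hwW
    exact ⟨v, hv, hφmem _ (hHconv v) (hcH v) w hwv⟩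
  have hPsub : P ⊆ φ '' K ∪ (A \ φ '' A) := by
    intro z hz
    by_cases hzK : z ∈ φ '' K
    · exact Or.inl hzK
    · right
      refine ⟨⟨hPK hz, ?_⟩, fun h => hzK (image_mono inter_subset_left h)⟩
      by_contra hzW
      have := h3 d K T c r hK hcK (hTP.trans hPK) hr0 hr1 z (hPK hz) ?_ ?_
      · exact this (by rw [hPT]; exact hz)
      · intro w hw he
        exact hzK ⟨w, hw, by rw [hφa]; exact he.symm⟩
      · intro v hv hzv
        exact hzW (by simp only [hW, mem_iUnion]; exact ⟨v, hv, hzv⟩)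
  -- volumes
  have hB : volume (Metric.ball (0 : E d) (1 / 2)) =
      ENNReal.ofReal ((1 / 2) ^ d) * volume (Metric.ball (0 : E d) 1) := by
    have := Measure.addHaar_ball_of_pos (volume : Measure (E d)) (0 : E d) (r := 1 / 2)
      (by norm_num)
    simpa using this
  have hBfin : volume (Metric.ball (0 : E d) (1 / 2)) ≠ ⊤ := measure_ball_lt_top.ne
  have hB1fin : volume (Metric.ball (0 : E d) 1) ≠ ⊤ := measure_ball_lt_top.ne
  have hβ : β d = (1 / 2) ^ d * (volume (Metric.ball (0 : E d) 1)).toReal := by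
    rw [β, hB, ENNReal.toReal_mul, ENNReal.toReal_ofReal (by positivity)]
  have hKfin : volume K ≠ ⊤ := hKcomp.measure_lt_top.ne
  have hKr : (volume K).toReal ≤ β d := by
    rw [β]; exact ENNReal.toReal_mono hBfin hvK
  have hvH : ∀ v ∈ T, volume (H v) ≤
      ENNReal.ofReal (3 * 2 ^ d * r ^ (d - 1)) * volume (Metric.ball (0 : E d) 1) := by
    intro v hv
    exact h4 d c v r hd (hdist c hcP v (hTP hv)) hr0 hr1
  have hvW : volume W ≤ n * (ENNReal.ofReal (3 * 2 ^ d * r ^ (d - 1)) *
      volume (Metric.ball (0 : E d) 1)) := by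
    have e : W = ⋃ v ∈ hTfin.toFinset, H v := by simp [hW]
    rw [e]
    refine (measure_biUnion_finset_le _ _).trans ?_
    refine (Finset.sum_le_card_nsmul _ _ _ (fun v hv => hvH v (by simpa using hv))).trans ?_
    rw [nsmul_eq_mul, ← Set.ncard_eq_toFinset_card T hTfin, hcard]
  have hWfin : volume W ≠ ⊤ := by
    refine (hvW.trans_lt ?_).ne
    exact ENNReal.mul_lt_top (by simp) (ENNReal.mul_lt_top ENNReal.ofReal_lt_top hB1fin.lt_top)
  have hWr : (volume W).toReal ≤ β d / 4 := by
    have h := ENNReal.toReal_mono (ENNReal.mul_ne_top (by simp)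
      (ENNReal.mul_ne_top ENNReal.ofReal_ne_top hB1fin)) hvW
    rw [ENNReal.toReal_mul, ENNReal.toReal_mul, ENNReal.toReal_ofReal (by positivity),
      ENNReal.toReal_natCast] at h
    refine h.trans ?_
    have hb0 : 0 ≤ β d := ENNReal.toReal_nonneg
    have e : (n : ℝ) * (3 * 2 ^ d * r ^ (d - 1) * (volume (Metric.ball (0 : E d) 1)).toReal) =
        (n : ℝ) * (3 * 4 ^ d * r ^ (d - 1)) * β d := by
      rw [hβ]
      have : (4 : ℝ) ^ d * (1 / 2) ^ d = 2 ^ d := by rw [← mul_pow]; norm_num
      calc _ = (n : ℝ) * (3 * r ^ (d - 1)) * (2 ^ d) *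
            (volume (Metric.ball (0 : E d) 1)).toReal := by ring
        _ = _ := by rw [← this]; ring
    rw [e]
    calc _ ≤ 1 / 4 * β d := mul_le_mul_of_nonneg_right hn hb0
      _ = _ := by ring
  have hAfin : volume A ≠ ⊤ := measure_ne_top_of_subset inter_subset_right hWfin
  have hAr : (volume A).toReal ≤ β d / 4 :=
    (ENNReal.toReal_mono hWfin (measure_mono inter_subset_right)).trans hWr
  have hφv : ∀ X : Set (E d), volume (φ '' X) = ENNReal.ofReal (l ^ d) * volume X := by
    intro X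
    rw [hφ, Measure.addHaar_image_homothety]
    simp [abs_of_nonneg (pow_nonneg hl0 d)]
  have hnull : NullMeasurableSet (φ '' A) (volume : Measure (E d)) := by
    have e : φ '' A = ⋃ v ∈ hTfin.toFinset, φ '' (K ∩ H v) := by
      rw [hA, hW, inter_iUnion₂, image_iUnion₂]
      simp
    rw [e]
    refine Finset.nullMeasurableSet_biUnion _ (fun v _ => ?_)
    exact ((hKconv.inter (hHconv v)).affine_image φ).nullMeasurableSet volume
  have hφAfin : volume (φ '' A) ≠ ⊤ := measure_ne_top_of_subset hφA hAfin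
  have hdiff : volume (A \ φ '' A) = volume A - volume (φ '' A) :=
    measure_sdiff hφA hnull hφAfin
  have hle : volume P ≤ volume (φ '' K) + (volume A - volume (φ '' A)) := by
    rw [← hdiff]
    exact (measure_mono hPsub).trans (measure_union_le _ _)
  have hφKfin : volume (φ '' K) ≠ ⊤ := by
    rw [hφv]; exact ENNReal.mul_ne_top ENNReal.ofReal_ne_top hKfin
  have hler : (volume P).toReal ≤ l ^ d * (volume K).toReal + ((volume A).toReal -
      l ^ d * (volume A).toReal) := by
    have h := ENNReal.toReal_mono (ENNReal.add_ne_top.2 ⟨hφKfin, ENNReal.sub_ne_top hAfin⟩) hle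
    rw [ENNReal.toReal_add hφKfin (ENNReal.sub_ne_top hAfin),
      ENNReal.toReal_sub_of_le (measure_mono hφA) hAfin, hφv, hφv, ENNReal.toReal_mul,
      ENNReal.toReal_mul, ENNReal.toReal_ofReal (by positivity)] at h
    exact h
  have hld : l ^ d ≤ l := by
    calc l ^ d ≤ l ^ 1 := pow_le_pow_of_le_one hl0 hl1 hd
      _ = l := pow_one l
  have hld0 : 0 ≤ l ^ d := by positivity
  have hb0 : 0 ≤ β d := ENNReal.toReal_nonneg
  have hA0 : 0 ≤ (volume A).toReal := ENNReal.toReal_nonneg
  calc (volume P).toReal ≤ l ^ d * (volume K).toReal + (1 - l ^ d) * (volume A).toReal := by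
        linarith
    _ ≤ l ^ d * β d + (1 - l ^ d) * (β d / 4) := by
        gcongr
        linarith
    _ ≤ (1 - r ^ 2 / 4) * β d := by
        have : l ^ d * (3 / 4) + 1 / 4 ≤ 1 - r ^ 2 / 4 := by
          rw [hl] at hld ⊢
          nlinarith
        nlinarith [mul_le_mul_of_nonneg_right this hb0]

end Pool.Agent.Helper8.Poly
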